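import Pool.Agent.helper61.Y2.Spec

/-! # Row Y0C of project Y2 -/

set_option autoImplicit false

namespace H61.Y2

open H61.Yorioka Cardinal

theorem Y0C_root (k N : ℕ) (hN : 2 ^ k ≤ N) :
    ∃ b : ℕ, (∀ i, i ^ (2 * k + 1) < N → i < b) ∧ b ^ k ≤ N := by
  classical
  have hN1 : 1 ≤ N := le_trans Nat.one_le_two_pow hN
  have hex : ∃ b : ℕ, N ≤ b ^ (2 * k + 1) :=
    ⟨N, Nat.le_self_pow (by omega) N⟩
  refine ⟨Nat.find hex, ?_, ?_⟩
  · intro i hi
    by_contra hlt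
    have h1 : Nat.find hex ≤ i := not_lt.1 hlt
    have h2 : (Nat.find hex) ^ (2 * k + 1) ≤ i ^ (2 * k + 1) := Nat.pow_le_pow_left h1 _
    have h3 := Nat.find_spec hex
    omega
  · obtain ⟨b, hb⟩ : ∃ b, Nat.find hex = b := ⟨_, rfl⟩
    rw [hb]
    by_cases h2 : b ≤ 2
    · exact le_trans (Nat.pow_le_pow_left h2 k) hN
    · have h3 : ¬ N ≤ (b - 1) ^ (2 * k + 1) := Nat.find_min hex (by omega)
      have h4 : b ≤ (b - 1) ^ 2 := by
        obtain ⟨c, rfl⟩ : ∃ c, b = c + 3 := ⟨b - 3, by omega⟩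
        have : c + 3 - 1 = c + 2 := by omega
        rw [this]
        nlinarith
      have h5 : b ^ k ≤ (b - 1) ^ (2 * k) := by
        rw [pow_mul]
        exact Nat.pow_le_pow_left h4 k
      have h6 : (b - 1) ^ (2 * k) ≤ (b - 1) ^ (2 * k + 1) :=
        Nat.pow_le_pow_right (by omega) (by omega)
      omega

theorem Y0C_thin (f : ℕ → ℕ) (hf : StrictMono f) (σ : ℕ → List Bool)
    (hσ : FarBelow f (ht σ)) : Thin f (Set.range σ) := by
  intro k
  obtain ⟨m0, hm0⟩ := hσ (2 * k + 1)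
  refine ⟨m0 ^ k + 2 ^ k, fun N hN => ?_⟩
  obtain ⟨b, hb1, hb2⟩ := Y0C_root k N (by omega)
  have hsub : {t | t ∈ Set.range σ ∧ t.length < f N} ⊆
      ((Finset.range (max m0 b)).image σ : Set (List Bool)) := by
    rintro t ⟨⟨i, rfl⟩, ht⟩
    rw [Finset.coe_image]
    refine ⟨i, ?_, rfl⟩
    rw [Finset.coe_range, Set.mem_Iio]
    by_cases hi : i < m0
    · exact lt_of_lt_of_le hi (le_max_left _ _)
    · have h1 : f (i ^ (2 * k + 1)) ≤ (σ i).length := hm0 i (not_lt.1 hi)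
      have h2 : f (i ^ (2 * k + 1)) < f N := lt_of_le_of_lt h1 ht
      exact lt_of_lt_of_le (hb1 i (hf.lt_iff_lt.1 h2)) (le_max_right _ _)
  have hcard : cn (Set.range σ) (f N) ≤ max m0 b := by
    unfold cn
    refine le_trans (Set.ncard_le_ncard hsub (Finset.finite_toSet _)) ?_
    rw [Set.ncard_coe_finset]
    refine le_trans Finset.card_image_le ?_
    rw [Finset.card_range]
  refine le_trans (Nat.pow_le_pow_left hcard k) ?_
  rcases le_total m0 b with h | h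
  · rw [max_eq_right h]; exact hb2
  · rw [max_eq_left h]; exact le_trans (Nat.le_add_right _ _) hN

theorem Y0C_LS (f : ℕ → ℕ) (hf : StrictMono f) (σ : ℕ → List Bool)
    (hσ : FarBelow f (ht σ)) : limSet σ ⊆ LS (Set.range σ) := by
  classical
  obtain ⟨m1, hm1⟩ := hσ 1
  intro x hx hfin
  apply hx
  have hsub : {n | IsInit (σ n) x} ⊆ Set.Iio (m1 + hfin.toFinset.sup List.length + 1) := by
    intro n hn
    rw [Set.mem_Iio]
    by_contra hlt
    have h1 : m1 ≤ n := by omega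
    have h2 : f (n ^ 1) ≤ (σ n).length := hm1 n h1
    rw [pow_one] at h2
    have h3 : n ≤ f n := hf.id_le n
    have hmem : σ n ∈ hfin.toFinset := by
      rw [Set.Finite.mem_toFinset]
      exact ⟨⟨n, rfl⟩, hn⟩
    have h4 : (σ n).length ≤ hfin.toFinset.sup List.length := Finset.le_sup hmem
    omega
  exact (Set.finite_Iio _).subset hsub

theorem Y0C : Y0C_stmt := by
  intro f hf Z hZ
  obtain ⟨σ, hσ, hZσ⟩ := hZ
  exact ⟨Set.range σ, Y0C_thin f hf σ hσ, hZσ.trans (Y0C_LS f hf σ hσ)⟩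

end H61.Y2
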